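import Pool.Agent.L7h51.PR.Eig
import Pool.Agent.TH815.GR3

set_option autoImplicit false
set_option maxHeartbeats 4000000

/-!
# Fourth moment of the spectrum of a `K_{r,r}`-free graph, ranks of approximations, energy
-/

namespace Pool.Agent.L7h47.SR

open Finset SimpleGraph Matrix Pool.Agent.L7h51.PR
open scoped Classical

variable {V : Type} [Fintype V]

/-- pairs and `r`-sets -/
theorem double (G : SimpleGraph V) (r : ℕ) :
    ∑ x, ∑ y, (#(com G {x, y})).choose r = ∑ S ∈ powersetCard r (univ : Finset V), #(com G S) ^ 2 := by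
  have h1 : ∀ x y : V, (#(com G {x, y})).choose r =
      ∑ S ∈ powersetCard r (univ : Finset V), if x ∈ com G S ∧ y ∈ com G S then 1 else 0 := by
    intro x y
    rw [← card_powersetCard, sum_boole, Nat.cast_id]
    congr 1
    ext S
    simp only [mem_powersetCard, mem_filter, subset_univ, true_and, mem_com]
    constructor
    · rintro ⟨h, h'⟩
      refine ⟨h', fun s hs => ?_, fun s hs => ?_⟩
      · exact ((mem_com.1 (h hs)) x (by simp)).symm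
      · exact ((mem_com.1 (h hs)) y (by simp)).symm
    · rintro ⟨h', h1, h2⟩
      refine ⟨fun s hs => mem_com.2 fun z hz => ?_, h'⟩
      rw [mem_insert, mem_singleton] at hz
      rcases hz with rfl | rfl
      · exact (h1 s hs).symm
      · exact (h2 s hs).symm
  simp_rw [h1]
  have h2 : ∀ x : V, ∑ y : V, ∑ S ∈ powersetCard r (univ : Finset V),
      (if x ∈ com G S ∧ y ∈ com G S then 1 else 0) =
      ∑ S ∈ powersetCard r (univ : Finset V), ∑ y : V, (if x ∈ com G S ∧ y ∈ com G S then 1 else 0) :=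
    fun x => sum_comm
  simp_rw [h2]
  rw [sum_comm]
  refine sum_congr rfl fun S _ => ?_
  have h3 : ∀ x : V, ∑ y : V, (if x ∈ com G S ∧ y ∈ com G S then 1 else 0) =
      if x ∈ com G S then #(com G S) else 0 := by
    intro x
    split_ifs with hx
    · simp [hx]
    · simp [hx]
  simp_rw [h3]
  rw [← sum_filter]
  simp [pow_two]

/-- the `r`-th moments of the codegrees -/
theorem moment (G : SimpleGraph V) {r : ℕ} (hr : 1 ≤ r)
    (hG : (completeBipartiteGraph (Fin r) (Fin r)).Free G) :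
    ∑ x, ∑ y, (#(com G {x, y}) + 1 - r) ^ r ≤ (r - 1) ^ 2 * (Fintype.card V) ^ r := by
  have h1 : ∑ x, ∑ y, (#(com G {x, y}) + 1 - r) ^ r ≤ ∑ x, ∑ y, r.factorial * (#(com G {x, y})).choose r := by
    refine sum_le_sum fun x _ => sum_le_sum fun y _ => ?_
    rw [← Nat.descFactorial_eq_factorial_mul_choose]
    exact Nat.pow_sub_le_descFactorial _ _
  refine h1.trans ?_
  simp_rw [← mul_sum]
  rw [double]
  have h2 : ∑ S ∈ powersetCard r (univ : Finset V), #(com G S) ^ 2 ≤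
      ∑ S ∈ powersetCard r (univ : Finset V), (r - 1) ^ 2 := by
    refine sum_le_sum fun S hS => ?_
    have := com_lt hG (mem_powersetCard.1 hS).2
    exact Nat.pow_le_pow_left (by omega) 2
  rw [sum_const, card_powersetCard, card_univ, smul_eq_mul] at h2
  calc r.factorial * ∑ S ∈ powersetCard r (univ : Finset V), #(com G S) ^ 2 ≤
        r.factorial * ((Fintype.card V).choose r * (r - 1) ^ 2) := Nat.mul_le_mul_left _ h2
    _ = (r - 1) ^ 2 * (r.factorial * (Fintype.card V).choose r) := by ring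
    _ ≤ (r - 1) ^ 2 * (Fintype.card V) ^ r := by
      refine Nat.mul_le_mul_left _ ?_
      rw [← Nat.descFactorial_eq_factorial_mul_choose]
      exact Nat.descFactorial_le_pow _ _

/-- the fourth moment: `∑ codeg² ≤ 4 (r-1)² n^(4 - 4/r)` -/
theorem fourth (G : SimpleGraph V) {r : ℕ} (hr : 2 ≤ r)
    (hG : (completeBipartiteGraph (Fin r) (Fin r)).Free G) :
    ∑ x, ∑ y, (#(com G {x, y}) : ℝ) ^ 2 ≤
      4 * ((r : ℝ) - 1) ^ 2 * (Fintype.card V : ℝ) ^ (4 - 4 / (r : ℝ)) := by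
  have hrR : (2 : ℝ) ≤ r := by exact_mod_cast hr
  have hr0 : (0 : ℝ) < r := by linarith
  rcases Nat.eq_zero_or_pos (Fintype.card V) with hn | hn
  · have : IsEmpty V := Fintype.card_eq_zero_iff.1 hn
    simp only [univ_eq_empty, sum_empty]
    positivity
  set n : ℝ := (Fintype.card V : ℝ) with hnd
  have hn1 : 1 ≤ n := by
    rw [hnd]
    exact_mod_cast hn
  have hn0 : 0 < n := by linarith
  obtain ⟨b, hb⟩ : ∃ b : V × V → ℝ, b = fun p => ((#(com G {p.1, p.2}) + 1 - r : ℕ) : ℝ) := ⟨_, rfl⟩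
  have hb0 : ∀ p, 0 ≤ b p := fun p => by rw [hb]; positivity
  -- the `r`-th moment
  have h1 : ∑ p : V × V, b p ^ r ≤ ((r : ℝ) - 1) ^ 2 * n ^ r := by
    have h := moment G (by omega : 1 ≤ r) hG
    have h' : ((∑ x, ∑ y, (#(com G {x, y}) + 1 - r) ^ r : ℕ) : ℝ) ≤
        (((r - 1) ^ 2 * (Fintype.card V) ^ r : ℕ) : ℝ) := by exact_mod_cast h
    push_cast [Nat.cast_sub (show 1 ≤ r by omega)] at h'
    rw [Fintype.sum_prod_type, hb]
    simpa using h'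
  -- power means
  have hp : (1 : ℝ) ≤ r / 2 := by linarith
  have h2 := Real.rpow_sum_le_const_mul_sum_rpow (univ : Finset (V × V)) (fun p => b p ^ 2) hp
  have h3 : ∑ p : V × V, |b p ^ 2| ^ ((r : ℝ) / 2) = ∑ p : V × V, b p ^ r := by
    refine sum_congr rfl fun p _ => ?_
    rw [abs_of_nonneg (by positivity), ← Real.rpow_natCast (b p) 2, ← Real.rpow_mul (hb0 p)]
    have : ((2 : ℕ) : ℝ) * ((r : ℝ) / 2) = r := by push_cast; ring
    rw [this, Real.rpow_natCast]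
  have h4 : ∑ p : V × V, |b p ^ 2| = ∑ p : V × V, b p ^ 2 :=
    sum_congr rfl fun p _ => abs_of_nonneg (by positivity)
  have h5 : (#(univ : Finset (V × V)) : ℝ) = n ^ (2 : ℝ) := by
    rw [card_univ, Fintype.card_prod, Nat.cast_mul, ← hnd, Real.rpow_two, pow_two]
  rw [h3, h4, h5] at h2
  have hS0 : 0 ≤ ∑ p : V × V, b p ^ 2 := sum_nonneg fun p _ => by positivity
  have h6 : (∑ p : V × V, b p ^ 2) ^ ((r : ℝ) / 2) ≤ ((r : ℝ) - 1) ^ 2 * n ^ (2 * (r : ℝ) - 2) := by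
    refine h2.trans ?_
    calc (n ^ (2 : ℝ)) ^ ((r : ℝ) / 2 - 1) * ∑ p : V × V, b p ^ r ≤
          (n ^ (2 : ℝ)) ^ ((r : ℝ) / 2 - 1) * (((r : ℝ) - 1) ^ 2 * n ^ r) := by gcongr
      _ = ((r : ℝ) - 1) ^ 2 * ((n ^ (2 : ℝ)) ^ ((r : ℝ) / 2 - 1) * n ^ (r : ℝ)) := by
        rw [Real.rpow_natCast]
        ring
      _ = ((r : ℝ) - 1) ^ 2 * n ^ (2 * (r : ℝ) - 2) := by
        rw [← Real.rpow_mul hn0.le, ← Real.rpow_add hn0]
        congr 2
        ring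
  have h7 : ∑ p : V × V, b p ^ 2 ≤ ((r : ℝ) - 1) ^ 2 * n ^ (4 - 4 / (r : ℝ)) := by
    have h8 := Real.rpow_le_rpow (Real.rpow_nonneg hS0 _) h6 (show (0 : ℝ) ≤ 2 / r by positivity)
    rw [← Real.rpow_mul hS0] at h8
    have h9 : (r : ℝ) / 2 * (2 / r) = 1 := by field_simp
    rw [h9, Real.rpow_one, Real.mul_rpow (by positivity) (by positivity), ← Real.rpow_mul hn0.le] at h8
    have h10 : (2 * (r : ℝ) - 2) * (2 / r) = 4 - 4 / r := by field_simp; ring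
    rw [h10] at h8
    refine h8.trans ?_
    gcongr
    have hr1 : (1 : ℝ) ≤ ((r : ℝ) - 1) ^ 2 := by nlinarith
    calc (((r : ℝ) - 1) ^ 2) ^ (2 / (r : ℝ)) ≤ (((r : ℝ) - 1) ^ 2) ^ (1 : ℝ) :=
          Real.rpow_le_rpow_of_exponent_le hr1 (by rw [div_le_one hr0]; exact hrR)
      _ = ((r : ℝ) - 1) ^ 2 := Real.rpow_one _
  -- back to the codegrees
  have h11 : ∑ x, ∑ y, (#(com G {x, y}) : ℝ) ^ 2 ≤ ∑ p : V × V, (2 * b p ^ 2 + 2 * ((r : ℝ) - 1) ^ 2) := by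
    rw [Fintype.sum_prod_type]
    refine sum_le_sum fun x _ => sum_le_sum fun y _ => ?_
    have h12 : (#(com G {x, y}) : ℝ) ≤ b (x, y) + ((r : ℝ) - 1) := by
      have h13 : #(com G {x, y}) + 1 ≤ (#(com G {x, y}) + 1 - r) + r := by omega
      have h14 : ((#(com G {x, y}) + 1 : ℕ) : ℝ) ≤ (((#(com G {x, y}) + 1 - r) + r : ℕ) : ℝ) := by
        exact_mod_cast h13
      rw [hb]
      push_cast at h14 ⊢
      linarith
    have h13 : (0 : ℝ) ≤ (#(com G {x, y}) : ℝ) := Nat.cast_nonneg _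
    nlinarith [sq_nonneg (b (x, y) - ((r : ℝ) - 1)), hb0 (x, y)]
  refine h11.trans ?_
  rw [sum_add_distrib, ← mul_sum, sum_const, nsmul_eq_mul, h5]
  have h14 : n ^ (2 : ℝ) ≤ n ^ (4 - 4 / (r : ℝ)) := by
    apply Real.rpow_le_rpow_of_exponent_le hn1
    have : 4 / (r : ℝ) ≤ 2 := by rw [div_le_iff₀ hr0]; linarith
    linarith
  have h15 : n ^ (2 : ℝ) * (2 * ((r : ℝ) - 1) ^ 2) ≤ n ^ (4 - 4 / (r : ℝ)) * (2 * ((r : ℝ) - 1) ^ 2) := by
    gcongr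
  linarith

theorem adj_sum (G : SimpleGraph V) (x y : V) :
    ∑ z, G.adjMatrix ℝ x z * G.adjMatrix ℝ y z = #(com G {x, y}) := by
  rw [← sq_apply, pow_two, Matrix.mul_apply]
  refine sum_congr rfl fun z _ => ?_
  congr 1
  simp [adjMatrix_apply, G.adj_comm]

/-- the squared Frobenius norm is twice the number of edges -/
theorem frob (G : SimpleGraph V) : ∑ x, ∑ y, (G.adjMatrix ℝ x y) ^ 2 = 2 * G.edgeSet.ncard := by
  have h1 : G.edgeSet.ncard = #G.edgeFinset := by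
    rw [Set.ncard_eq_toFinset_card', ← SimpleGraph.edgeFinset]
  have h2 := G.sum_degrees_eq_twice_card_edges
  have h3 : ∀ x, ∑ y, (G.adjMatrix ℝ x y) ^ 2 = G.degree x := by
    intro x
    have h4 : ∀ y, (G.adjMatrix ℝ x y) ^ 2 = if G.Adj x y then 1 else 0 := by
      intro y
      rw [adjMatrix_apply]
      split_ifs <;> simp
    simp_rw [h4]
    rw [sum_boole, ← card_neighborFinset_eq_degree]
    congr 2
    ext y
    simp
  simp_rw [h3]
  rw [h1]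
  exact_mod_cast h2

/-- ranks of approximations -/
theorem rank_bound (G : SimpleGraph V) {r : ℕ} (hr : 2 ≤ r)
    (hG : (completeBipartiteGraph (Fin r) (Fin r)).Free G) {c η : ℝ} (hc : 0 < c) (hη : 0 ≤ η)
    (he : c * (Fintype.card V : ℝ) ^ (2 - 1 / (r : ℝ)) ≤ G.edgeSet.ncard) (B : Matrix V V ℝ)
    (hB : ∑ x, ∑ y, (G.adjMatrix ℝ x y - B x y) ^ 2 ≤ (1 - η) * ∑ x, ∑ y, (G.adjMatrix ℝ x y) ^ 2) :
    (η * c / ((r : ℝ) - 1)) ^ 2 * (Fintype.card V : ℝ) ^ (2 / (r : ℝ)) ≤ B.rank := by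
  have hrR : (2 : ℝ) ≤ r := by exact_mod_cast hr
  have hr0 : (0 : ℝ) < r := by linarith
  have hr1 : (0 : ℝ) < (r : ℝ) - 1 := by linarith
  rcases Nat.eq_zero_or_pos (Fintype.card V) with hn | hn
  · rw [hn, Nat.cast_zero, Real.zero_rpow (by positivity), mul_zero]
    positivity
  set n : ℝ := (Fintype.card V : ℝ) with hnd
  have hn0 : 0 < n := by rw [hnd]; exact_mod_cast hn
  obtain ⟨F, hF⟩ : ∃ F : ℝ, F = ∑ x, ∑ y, (G.adjMatrix ℝ x y) ^ 2 := ⟨_, rfl⟩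
  have hF2 : F = 2 * G.edgeSet.ncard := by rw [hF, frob]
  have hF0 : 0 ≤ F := by rw [hF2]; positivity
  rw [← hF] at hB
  have h1 := Pool.TH815.GR.approx_rank (G.adjMatrix ℝ) B (η * F) (by positivity) (by
    rw [← hF]
    linarith)
  have h2 : ∑ x, ∑ x', (∑ y, G.adjMatrix ℝ x y * G.adjMatrix ℝ x' y) ^ 2 =
      ∑ x, ∑ y, (#(com G {x, y}) : ℝ) ^ 2 := by
    simp_rw [adj_sum]
  rw [h2] at h1
  have h3 := fourth G hr hG
  rw [← hnd] at h3
  have h4 : (η * F) ^ 2 ≤ B.rank * (4 * ((r : ℝ) - 1) ^ 2 * n ^ (4 - 4 / (r : ℝ))) :=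
    h1.trans (mul_le_mul_of_nonneg_left h3 (Nat.cast_nonneg _))
  have h5 : (η * (2 * (c * n ^ (2 - 1 / (r : ℝ))))) ^ 2 ≤ (η * F) ^ 2 := by
    have h6 : 2 * (c * n ^ (2 - 1 / (r : ℝ))) ≤ F := by rw [hF2]; linarith
    gcongr
  have h6 : (η * (2 * (c * n ^ (2 - 1 / (r : ℝ))))) ^ 2 =
      (4 * ((r : ℝ) - 1) ^ 2 * n ^ (4 - 4 / (r : ℝ))) * ((η * c / ((r : ℝ) - 1)) ^ 2 * n ^ (2 / (r : ℝ))) := by
    have h7 : (n ^ (2 - 1 / (r : ℝ))) ^ 2 = n ^ (4 - 4 / (r : ℝ)) * n ^ (2 / (r : ℝ)) := by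
      rw [← Real.rpow_natCast (n ^ (2 - 1 / (r : ℝ))) 2, ← Real.rpow_mul hn0.le, ← Real.rpow_add hn0]
      congr 1
      push_cast
      field_simp
      ring
    calc (η * (2 * (c * n ^ (2 - 1 / (r : ℝ))))) ^ 2 = 4 * (η * c) ^ 2 * (n ^ (2 - 1 / (r : ℝ))) ^ 2 := by ring
      _ = 4 * (η * c) ^ 2 * (n ^ (4 - 4 / (r : ℝ)) * n ^ (2 / (r : ℝ))) := by rw [h7]
      _ = _ := by
        field_simp
  have h8 : 0 < 4 * ((r : ℝ) - 1) ^ 2 * n ^ (4 - 4 / (r : ℝ)) := by positivity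
  have h9 : (4 * ((r : ℝ) - 1) ^ 2 * n ^ (4 - 4 / (r : ℝ))) *
      ((η * c / ((r : ℝ) - 1)) ^ 2 * n ^ (2 / (r : ℝ))) ≤
      (4 * ((r : ℝ) - 1) ^ 2 * n ^ (4 - 4 / (r : ℝ))) * B.rank := by
    rw [← h6, mul_comm (4 * ((r : ℝ) - 1) ^ 2 * n ^ (4 - 4 / (r : ℝ))) (B.rank : ℝ)]
    exact h5.trans h4
  exact le_of_mul_le_mul_left h9 h8

/-- the second moment of the spectrum -/
theorem trace_sq (G : SimpleGraph V) :
    ∑ i, (isHerm G).eigenvalues i ^ 2 = 2 * G.edgeSet.ncard := by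
  have h := (isHerm G).spectral_theorem
  have h1 : ∑ i, (isHerm G).eigenvalues i ^ 2 = ((G.adjMatrix ℝ) ^ 2).trace := by
    conv_rhs => rw [h]
    rw [← map_pow, Unitary.conjStarAlgAut_apply, Matrix.trace_mul_comm, ← Matrix.mul_assoc]
    rw [Unitary.coe_star_mul_self, Matrix.one_mul, Matrix.diagonal_pow, Matrix.trace_diagonal]
    rfl
  rw [h1, ← frob, Matrix.trace]
  refine sum_congr rfl fun x _ => ?_
  rw [diag_apply, pow_two, Matrix.mul_apply]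
  refine sum_congr rfl fun y _ => ?_
  simp only [adjMatrix_apply, G.adj_comm y x]
  ring

/-- the graph energy: the sum of the absolute values of the eigenvalues -/
noncomputable def energy (G : SimpleGraph V) : ℝ := ∑ i, |(isHerm G).eigenvalues i|

theorem spec4 (G : SimpleGraph V) {r : ℕ} (hr : 2 ≤ r)
    (hG : (completeBipartiteGraph (Fin r) (Fin r)).Free G) :
    ∑ i, (isHerm G).eigenvalues i ^ 4 ≤
      4 * ((r : ℝ) - 1) ^ 2 * (Fintype.card V : ℝ) ^ (4 - 4 / (r : ℝ)) := by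
  rw [trace_pow_four, trace_four]
  exact fourth G hr hG

/-- `(∑ λ²)³ ≤ (∑ |λ|)² ∑ λ⁴` -/
theorem holder (s : Finset V) (f : V → ℝ) :
    (∑ i ∈ s, f i ^ 2) ^ 3 ≤ (∑ i ∈ s, |f i|) ^ 2 * ∑ i ∈ s, f i ^ 4 := by
  obtain ⟨A, hA⟩ : ∃ A : ℝ, A = ∑ i ∈ s, |f i| := ⟨_, rfl⟩
  obtain ⟨S2, hS2⟩ : ∃ S2 : ℝ, S2 = ∑ i ∈ s, f i ^ 2 := ⟨_, rfl⟩
  obtain ⟨S3, hS3⟩ : ∃ S3 : ℝ, S3 = ∑ i ∈ s, |f i| ^ 3 := ⟨_, rfl⟩
  obtain ⟨S4, hS4⟩ : ∃ S4 : ℝ, S4 = ∑ i ∈ s, f i ^ 4 := ⟨_, rfl⟩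
  rw [← hA, ← hS2, ← hS4]
  have hA0 : 0 ≤ A := by rw [hA]; exact sum_nonneg fun i _ => abs_nonneg _
  have hS20 : 0 ≤ S2 := by rw [hS2]; exact sum_nonneg fun i _ => sq_nonneg _
  have hS30 : 0 ≤ S3 := by rw [hS3]; exact sum_nonneg fun i _ => by positivity
  have hS40 : 0 ≤ S4 := by rw [hS4]; exact sum_nonneg fun i _ => by positivity
  have h1 : S2 ^ 2 ≤ A * S3 := by
    rw [hS2, hA, hS3]
    apply sum_sq_le_sum_mul_sum_of_sq_le_mul
    · intro i _; positivity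
    · intro i _; positivity
    · intro i _
      have h : f i ^ 2 = |f i| ^ 2 := (sq_abs _).symm
      rw [h]
      exact le_of_eq (by ring)
  have h2 : S3 ^ 2 ≤ S2 * S4 := by
    rw [hS2, hS3, hS4]
    apply sum_sq_le_sum_mul_sum_of_sq_le_mul
    · intro i _; positivity
    · intro i _; positivity
    · intro i _
      have h : f i ^ 2 = |f i| ^ 2 := (sq_abs _).symm
      have h' : f i ^ 4 = |f i| ^ 4 := by
        rw [show (4 : ℕ) = 2 * 2 by norm_num, pow_mul, pow_mul, h]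
      rw [h, h']
      exact le_of_eq (by ring)
  rcases hS20.eq_or_lt with h0 | h0
  · rw [← h0, zero_pow (by norm_num)]
    positivity
  have h3 : S2 ^ 4 ≤ A ^ 2 * (S2 * S4) := by
    calc S2 ^ 4 = (S2 ^ 2) ^ 2 := by ring
      _ ≤ (A * S3) ^ 2 := pow_le_pow_left₀ (by positivity) h1 2
      _ = A ^ 2 * S3 ^ 2 := by ring
      _ ≤ A ^ 2 * (S2 * S4) := by gcongr
  have h4 : S2 * S2 ^ 3 ≤ S2 * (A ^ 2 * S4) := by
    calc S2 * S2 ^ 3 = S2 ^ 4 := by ring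
      _ ≤ _ := h3
      _ = _ := by ring
  exact le_of_mul_le_mul_left h4 h0

/-- the energy -/
theorem energy_bound (G : SimpleGraph V) {r : ℕ} (hr : 2 ≤ r)
    (hG : (completeBipartiteGraph (Fin r) (Fin r)).Free G) {c : ℝ} (hc : 0 < c)
    (he : c * (Fintype.card V : ℝ) ^ (2 - 1 / (r : ℝ)) ≤ G.edgeSet.ncard) :
    √2 * c ^ (3 / 2 : ℝ) / ((r : ℝ) - 1) * (Fintype.card V : ℝ) ^ (1 + 1 / (2 * (r : ℝ))) ≤ energy G := by
  have hrR : (2 : ℝ) ≤ r := by exact_mod_cast hr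
  have hr0 : (0 : ℝ) < r := by linarith
  have hr1 : (0 : ℝ) < (r : ℝ) - 1 := by linarith
  have hE0 : 0 ≤ energy G := sum_nonneg fun i _ => abs_nonneg _
  rcases Nat.eq_zero_or_pos (Fintype.card V) with hn | hn
  · rw [hn, Nat.cast_zero, Real.zero_rpow (by positivity), mul_zero]
    exact hE0
  set n : ℝ := (Fintype.card V : ℝ) with hnd
  have hn0 : 0 < n := by rw [hnd]; exact_mod_cast hn
  have h1 := holder (univ : Finset V) (isHerm G).eigenvalues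
  rw [trace_sq] at h1
  have h2 := spec4 G hr hG
  rw [← hnd] at h2
  have h3 : (2 * (c * n ^ (2 - 1 / (r : ℝ)))) ^ 3 ≤
      energy G ^ 2 * (4 * ((r : ℝ) - 1) ^ 2 * n ^ (4 - 4 / (r : ℝ))) := by
    calc (2 * (c * n ^ (2 - 1 / (r : ℝ)))) ^ 3 ≤ (2 * (G.edgeSet.ncard : ℝ)) ^ 3 := by gcongr
      _ ≤ _ := h1
      _ ≤ _ := mul_le_mul_of_nonneg_left h2 (by positivity)
  have hX0 : 0 ≤ √2 * c ^ (3 / 2 : ℝ) / ((r : ℝ) - 1) * n ^ (1 + 1 / (2 * (r : ℝ))) := by positivity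
  have h4 : (√2 * c ^ (3 / 2 : ℝ) / ((r : ℝ) - 1) * n ^ (1 + 1 / (2 * (r : ℝ)))) ^ 2 *
      (4 * ((r : ℝ) - 1) ^ 2 * n ^ (4 - 4 / (r : ℝ))) = (2 * (c * n ^ (2 - 1 / (r : ℝ)))) ^ 3 := by
    have e1 : (c ^ (3 / 2 : ℝ)) ^ 2 = c ^ 3 := by
      rw [← Real.rpow_natCast (c ^ (3 / 2 : ℝ)) 2, ← Real.rpow_mul hc.le, ← Real.rpow_natCast c 3]
      norm_num
    have e2 : (n ^ (1 + 1 / (2 * (r : ℝ)))) ^ 2 * n ^ (4 - 4 / (r : ℝ)) = (n ^ (2 - 1 / (r : ℝ))) ^ 3 := by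
      rw [← Real.rpow_natCast (n ^ (1 + 1 / (2 * (r : ℝ)))) 2, ← Real.rpow_mul hn0.le,
        ← Real.rpow_add hn0, ← Real.rpow_natCast (n ^ (2 - 1 / (r : ℝ))) 3, ← Real.rpow_mul hn0.le]
      congr 1
      push_cast
      field_simp
      ring
    have e3 : (√2 : ℝ) ^ 2 = 2 := Real.sq_sqrt (by norm_num)
    calc _ = (√2) ^ 2 * (c ^ (3 / 2 : ℝ)) ^ 2 * 4 *
          ((n ^ (1 + 1 / (2 * (r : ℝ)))) ^ 2 * n ^ (4 - 4 / (r : ℝ))) := by
          field_simp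
      _ = _ := by rw [e1, e2, e3]; ring
  rw [← h4] at h3
  have h5 : 0 < 4 * ((r : ℝ) - 1) ^ 2 * n ^ (4 - 4 / (r : ℝ)) := by positivity
  have h6 := le_of_mul_le_mul_right h3 h5
  exact (pow_le_pow_iff_left₀ hX0 hE0 (by norm_num)).1 h6

/-- many eigenvalues of at least random size -/
theorem many (G : SimpleGraph V) {r : ℕ} (hr : 2 ≤ r)
    (hG : (completeBipartiteGraph (Fin r) (Fin r)).Free G) {c : ℝ} (hc : 0 < c)
    (he : c * (Fintype.card V : ℝ) ^ (2 - 1 / (r : ℝ)) ≤ G.edgeSet.ncard) :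
    (c / (2 * ((r : ℝ) - 1))) ^ 2 * (Fintype.card V : ℝ) ^ (2 / (r : ℝ)) ≤
      #(univ.filter fun i : V => (G.edgeSet.ncard : ℝ) / Fintype.card V ≤ (isHerm G).eigenvalues i ^ 2) := by
  have hrR : (2 : ℝ) ≤ r := by exact_mod_cast hr
  have hr0 : (0 : ℝ) < r := by linarith
  have hr1 : (0 : ℝ) < (r : ℝ) - 1 := by linarith
  rcases Nat.eq_zero_or_pos (Fintype.card V) with hn | hn
  · rw [hn, Nat.cast_zero, Real.zero_rpow (by positivity), mul_zero]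
    positivity
  set n : ℝ := (Fintype.card V : ℝ) with hnd
  have hn0 : 0 < n := by rw [hnd]; exact_mod_cast hn
  obtain ⟨e, hee⟩ : ∃ e : ℝ, e = G.edgeSet.ncard := ⟨_, rfl⟩
  rw [← hee] at he ⊢
  set lam := (isHerm G).eigenvalues with hlam
  set S := univ.filter fun i : V => e / n ≤ lam i ^ 2 with hS
  have h1 : ∑ i, lam i ^ 2 = 2 * e := by rw [hlam, trace_sq, hee]
  have h2 : ∑ i ∈ univ.filter (fun i : V => ¬ e / n ≤ lam i ^ 2), lam i ^ 2 ≤ e := by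
    calc ∑ i ∈ univ.filter (fun i : V => ¬ e / n ≤ lam i ^ 2), lam i ^ 2 ≤
          ∑ _i ∈ univ.filter (fun i : V => ¬ e / n ≤ lam i ^ 2), e / n := by
          refine sum_le_sum fun i hi => ?_
          have := (mem_filter.1 hi).2
          push Not at this
          exact this.le
      _ = #(univ.filter (fun i : V => ¬ e / n ≤ lam i ^ 2)) * (e / n) := by
          rw [sum_const, nsmul_eq_mul]
      _ ≤ n * (e / n) := by
          have h3 : (#(univ.filter (fun i : V => ¬ e / n ≤ lam i ^ 2)) : ℝ) ≤ n := by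
            rw [hnd]
            exact_mod_cast card_le_univ _
          have h4 : 0 ≤ e / n := by rw [hee]; positivity
          gcongr
      _ = e := by field_simp
  have h3 : e ≤ ∑ i ∈ S, lam i ^ 2 := by
    have := sum_filter_add_sum_filter_not univ (fun i : V => e / n ≤ lam i ^ 2) (fun i => lam i ^ 2)
    rw [h1] at this
    rw [hS]
    linarith
  have h4 : (∑ i ∈ S, lam i ^ 2) ^ 2 ≤ #S * ∑ i ∈ S, (lam i ^ 2) ^ 2 := sq_sum_le_card_mul_sum_sq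
  have h5 : ∑ i ∈ S, (lam i ^ 2) ^ 2 ≤ 4 * ((r : ℝ) - 1) ^ 2 * n ^ (4 - 4 / (r : ℝ)) := by
    have h6 := spec4 G hr hG
    rw [← hnd, ← hlam] at h6
    refine le_trans ?_ h6
    calc ∑ i ∈ S, (lam i ^ 2) ^ 2 = ∑ i ∈ S, lam i ^ 4 := sum_congr rfl fun i _ => by ring
      _ ≤ _ := sum_le_sum_of_subset_of_nonneg (subset_univ _) fun i _ _ => by positivity
  have he0 : 0 ≤ c * n ^ (2 - 1 / (r : ℝ)) := by positivity
  have h6 : (c * n ^ (2 - 1 / (r : ℝ))) ^ 2 ≤ #S * (4 * ((r : ℝ) - 1) ^ 2 * n ^ (4 - 4 / (r : ℝ))) := by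
    calc (c * n ^ (2 - 1 / (r : ℝ))) ^ 2 ≤ e ^ 2 := by gcongr
      _ ≤ (∑ i ∈ S, lam i ^ 2) ^ 2 := pow_le_pow_left₀ (he0.trans he) h3 2
      _ ≤ _ := h4
      _ ≤ _ := mul_le_mul_of_nonneg_left h5 (Nat.cast_nonneg _)
  have h7 : (n ^ (2 - 1 / (r : ℝ))) ^ 2 = n ^ (4 - 4 / (r : ℝ)) * n ^ (2 / (r : ℝ)) := by
    rw [← Real.rpow_natCast (n ^ (2 - 1 / (r : ℝ))) 2, ← Real.rpow_mul hn0.le, ← Real.rpow_add hn0]
    congr 1
    push_cast
    field_simp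
    ring
  have h8 : (c * n ^ (2 - 1 / (r : ℝ))) ^ 2 = ((c / (2 * ((r : ℝ) - 1))) ^ 2 * n ^ (2 / (r : ℝ))) *
      (4 * ((r : ℝ) - 1) ^ 2 * n ^ (4 - 4 / (r : ℝ))) := by
    rw [mul_pow, h7]
    field_simp
    ring
  rw [h8] at h6
  exact le_of_mul_le_mul_right h6 (by positivity)

end Pool.Agent.L7h47.SR
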